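import Pool.Agent.REV.StmtsG
import Pool.Agent.BPH.Gwa
import Pool.Agent.BPH.Gwb
import Pool.Agent.BPH.Sph
import Pool.Agent.BPH.Spi
import Pool.Agent.BPH.PpmB
import Pool.Agent.BPH.Tex
import Pool.Agent.BPH.Geo

/-!
# Squad REV, row BPS (helper1): the induction step of the Blaschke-Petkantschin formula
-/

set_option autoImplicit false

open MeasureTheory Module Set Filter
open scoped RealInnerProductSpace Pointwise Topology ENNReal

namespace Pool.Agent.REV.H1

open Pool.Agent.REV Pool.Agent.BPH Pool.Agent.Helper55_PB Pool.Agent.Helper28_PB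

section

variable {E : Type} [NormedAddCommGroup E] [InnerProductSpace ℝ E] [FiniteDimensional ℝ E]

theorem perp_inf {i : ℕ} (v : Fin i → E) (a : E) : perp v ⊓ (ℝ ∙ a)ᗮ = perp (cns a v) := by
  unfold perp cns
  rw [Fin.range_cons, Submodule.span_insert, sup_comm, ← Submodule.inf_orthogonal]

theorem norm_pp_le {i : ℕ} (v : Fin i → E) (x : E) : ‖pp v x‖ ≤ ‖x‖ :=
  Submodule.norm_starProjection_apply_le _ _

variable [MeasurableSpace E] [BorelSpace E]

theorem cns_meas (i : ℕ) : Measurable (fun q : E × (Fin i → E) => cns q.1 q.2) := by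
  unfold cns
  refine measurable_pi_lambda _ fun k => ?_
  refine Fin.cases ?_ (fun k' => ?_) k
  · simpa using measurable_fst
  · simp only [Fin.cons_succ]
    exact (measurable_pi_apply k').comp measurable_snd

/-- the inner mean -/
noncomputable def Psi' {i : ℕ} (Ψ : (Fin (i + 1) → E) × E → ℝ) (q : (Fin i → E) × E) : ℝ :=
  mS (ℝ ∙ q.2)ᗮ (fun a => ‖pp q.1 a‖ * Ψ (cns a q.1, q.2))

theorem psi_BM {i : ℕ} {Ψ : (Fin (i + 1) → E) × E → ℝ} (hΨ : BM Ψ) : BM (Psi' Ψ) := by
  haveI : IsProbabilityMeasure (sph E) := sph_facts.prob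
  obtain ⟨hm, C, hC⟩ := hΨ
  have hC0 : 0 ≤ C := (abs_nonneg _).trans (hC 0)
  constructor
  · have hn : Measurable (fun t : ((Fin i → E) × E) × E => nrm (po t.1.2 t.2)) :=
      tex_nrm_meas.comp (measurable_po' (measurable_snd.comp measurable_fst) measurable_snd)
    have hv : Measurable (fun t : ((Fin i → E) × E) × E => t.1.1) :=
      measurable_fst.comp measurable_fst
    have hu : Measurable (fun t : ((Fin i → E) × E) × E => t.1.2) :=
      measurable_snd.comp measurable_fst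
    have h1 : Measurable (fun t : ((Fin i → E) × E) × E => pp t.1.1 (nrm (po t.1.2 t.2))) :=
      (ppm i).comp (hv.prodMk hn)
    have h2 : Measurable (fun t : ((Fin i → E) × E) × E =>
        Ψ (cns (nrm (po t.1.2 t.2)) t.1.1, t.1.2)) :=
      hm.comp (((cns_meas i).comp (hn.prodMk hv)).prodMk hu)
    have h3 := (h1.norm.mul h2).stronglyMeasurable.integral_prod_right' (ν := sph E)
    exact h3.measurable
  · refine ⟨C, fun q => ?_⟩
    unfold Psi' mS
    have h := norm_integral_le_of_norm_le_const (μ := sph E)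
      (f := fun x => ‖pp q.1 (nrm ((ℝ ∙ q.2)ᗮ.starProjection x))‖ *
        Ψ (cns (nrm ((ℝ ∙ q.2)ᗮ.starProjection x)) q.1, q.2))
      (C := C) (Eventually.of_forall (fun x => by
        rw [Real.norm_eq_abs, abs_mul, abs_norm]
        have h1 : ‖pp q.1 (nrm ((ℝ ∙ q.2)ᗮ.starProjection x))‖ ≤ 1 :=
          (norm_pp_le _ _).trans (geo_nrm_le _)
        calc ‖pp q.1 (nrm ((ℝ ∙ q.2)ᗮ.starProjection x))‖ * |Ψ _| ≤ 1 * C :=
              mul_le_mul h1 (hC _) (abs_nonneg _) zero_le_one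
          _ = C := one_mul C))
    simpa [Real.norm_eq_abs] using h

theorem G_BM {i : ℕ} {Ψ : (Fin i → E) × E → ℝ} (hΨ : BM Ψ) :
    BM (fun v : Fin i → E => mS (perp v) (fun u => Ψ (v, u))) := by
  haveI : IsProbabilityMeasure (sph E) := sph_facts.prob
  obtain ⟨hm, C, hC⟩ := hΨ
  constructor
  · have h1 : Measurable (fun t : (Fin i → E) × E => Ψ (t.1, nrm (pp t.1 t.2))) :=
      hm.comp (measurable_fst.prodMk (tex_nrm_meas.comp (ppm i)))
    have h3 := h1.stronglyMeasurable.integral_prod_right' (ν := sph E)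
    exact h3.measurable
  · exact ⟨C, fun v => tex_mS_bdd sph_facts (perp v) (fun u => hC (v, u))⟩

theorem step1 (MPS : MpsStmt) {i : ℕ} {Ψ : (Fin (i + 1) → E) × E → ℝ} (hΨ : BM Ψ) (u : E) :
    mP (ℝ ∙ u)ᗮ (i + 1) (fun w => gw w * Ψ (w, u)) =
      mP (ℝ ∙ u)ᗮ i (fun w => gw w * Psi' Ψ (w, u)) := by
  obtain ⟨hm, C, hC⟩ := hΨ
  have hC0 : 0 ≤ C := (abs_nonneg _).trans (hC 0)
  have hgm : Measurable (fun w : Fin (i + 1) → E => gw w) := (gwb gwa).cont.measurable
  have h1 : Measurable (fun w : Fin (i + 1) → E => gw w * Ψ (w, u)) :=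
    hgm.mul (hm.comp (measurable_id.prodMk measurable_const))
  have h2 : ∃ C : ℝ, ∀ v : Fin (i + 1) → E, (∀ l, ‖v l‖ ≤ 1) → |gw v * Ψ (v, u)| ≤ C := by
    refine ⟨C, fun v hv => ?_⟩
    rw [abs_mul]
    have h3 : |gw v| ≤ 1 := by
      have h0 : 0 ≤ gw v := Real.sqrt_nonneg _
      rw [abs_of_nonneg h0]
      exact ((gwb gwa).le v).trans (Finset.prod_le_one (fun l _ => norm_nonneg _) (fun l _ => hv l))
    calc |gw v| * |Ψ (v, u)| ≤ 1 * C := mul_le_mul h3 (hC _) (abs_nonneg _) zero_le_one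
      _ = C := one_mul C
  rw [(MPS i).1 (ℝ ∙ u)ᗮ (fun w => gw w * Ψ (w, u)) h1 h2]
  have h4 : (fun w : Fin i → E => mS (ℝ ∙ u)ᗮ (fun a => gw (cns a w) * Ψ (cns a w, u))) =
      fun w => gw w * Psi' Ψ (w, u) := by
    funext w
    unfold Psi' mS
    rw [← integral_const_mul]
    refine integral_congr_ae (Eventually.of_forall fun x => ?_)
    simp only
    rw [(gwa _ w).2, mul_assoc]
  rw [h4]

end

theorem bps (LLS : LlsStmt) (MPS : MpsStmt) : BpsStmt := by
  intro E _ _ _ _ _ i hi hB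
  haveI hnt : Nontrivial E := Module.nontrivial_of_finrank_pos (R := ℝ) (by omega)
  obtain ⟨c, hc, hc'⟩ := hB
  obtain ⟨c1, hc1, hL⟩ := LLS E (finrank ℝ E - i) (by omega)
  refine ⟨c * c1, mul_pos hc hc1, ?_⟩
  intro Ψ hΨ
  have hG := G_BM hΨ
  have e1 : ∫ u, mP (ℝ ∙ u)ᗮ (i + 1) (fun w => gw w * Ψ (w, u)) ∂sph E =
      ∫ u, mP (ℝ ∙ u)ᗮ i (fun w => gw w * Psi' Ψ (w, u)) ∂sph E := by
    refine integral_congr_ae (Eventually.of_forall fun u => ?_)
    exact step1 MPS hΨ u
  have e2 : ∫ v, mS (perp v) (fun u => Psi' Ψ (v, u)) ∂sphP E i =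
      ∫ v, c1 * ∫ a, mS (perp (cns a v)) (fun u => Ψ (cns a v, u)) ∂sph E ∂sphP E i := by
    refine integral_congr_ae ?_
    filter_upwards [spi sph_facts i (by omega : i ≤ finrank ℝ E)] with v hv
    have hk : finrank ℝ (perp v) = finrank ℝ E - i := by
      have := geo_finrank_perp hv.1
      omega
    have hΘ : BM (fun q : E × E => Ψ (cns q.1 v, q.2)) := by
      obtain ⟨hm, C, hC⟩ := hΨ
      refine ⟨?_, C, fun q => hC _⟩
      exact hm.comp (((cns_meas i).comp (measurable_fst.prodMk measurable_const)).prodMk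
        measurable_snd)
    have h1 := hL (perp v) hk (fun q : E × E => Ψ (cns q.1 v, q.2)) hΘ
    have h2 : mS (perp v) (fun u => Psi' Ψ (v, u)) =
        mS (perp v) (fun u => mS (ℝ ∙ u)ᗮ (fun a => ‖(perp v).starProjection a‖ *
          Ψ (cns a v, u))) := rfl
    rw [h2]
    rw [h1]
    simp only [perp_inf]
  rw [e1, hc' _ (psi_BM hΨ), e2, integral_const_mul, (MPS i).2 _ hG, mul_assoc]

end Pool.Agent.REV.H1
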